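import Pool.Agent.V5helper14.Sep.Stm

/-!
# Project SE, job SB: the explicit family is separated, disjoint, made of segments; general position
-/

set_option autoImplicit false

namespace Pool.Agent.V5helper48.SE

open Filter Pool.Agent.V5helper14.Hel Pool.Agent.V5helper14.Sep

theorem two_zeros {n : ℕ} (β : Fin n → ℝ) (h : (Finset.univ.filter fun i => β i ≠ 0).card + 2 ≤ n) :
    ∃ i j, i ≠ j ∧ β i = 0 ∧ β j = 0 := by
  have h1 : 1 < (Finset.univ.filter fun i => β i = 0).card := by
    have := Finset.card_filter_add_card_filter_not (s := (Finset.univ : Finset (Fin n))) (fun i => β i = 0)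
    rw [Finset.card_univ, Fintype.card_fin] at this
    simp only [ne_eq] at h
    omega
  obtain ⟨i, hi, j, hj, hij⟩ := Finset.one_lt_card.mp h1
  exact ⟨i, j, hij, (Finset.mem_filter.mp hi).2, (Finset.mem_filter.mp hj).2⟩

theorem famA_nonempty (K : ℕ) (i : Fin (K + 4)) : (famA K i).Nonempty := by
  refine Fin.addCases (fun m => ?_) (fun j => ?_) i
  · unfold famA
    rw [Fin.append_left]
    exact Set.singleton_nonempty _
  · unfold famA
    rw [Fin.append_right]
    exact ⟨_, _, left_mem_segment ℝ _ _, rfl⟩

theorem exists_X {K : ℕ} (y : Fin (K + 4) → Fin (K + 2) → ℝ) (hy : ∀ i, y i ∈ famA K i) :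
    ∃ X : Fin 4 → Fin 2 → ℝ, (∀ j, X j ∈ sgm4 j) ∧ ∀ i, y i = pts (K := K) X i := by
  have h1 : ∀ j : Fin 4, ∃ X, X ∈ sgm4 j ∧ emb j X = y (Fin.natAdd K j) := by
    intro j
    have := hy (Fin.natAdd K j)
    unfold famA at this
    rw [Fin.append_right] at this
    exact this
  choose X hX hX' using h1
  refine ⟨X, hX, fun i => ?_⟩
  refine Fin.addCases (fun m => ?_) (fun j => ?_) i
  · have := hy (Fin.castAdd 4 m)
    unfold famA at this
    rw [Fin.append_left] at this
    rw [Set.mem_singleton_iff.mp this]
    unfold pts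
    rw [Fin.append_left]
  · rw [← hX' j]
    unfold pts
    rw [Fin.append_right]

theorem sum_zero_ext {K q : ℕ} {X : Fin 4 → Fin q → ℝ} (f : Fin (K + 2) → Fin (K + 4))
    (hf : Function.Injective f) (w : Fin (K + 2) → ℝ)
    (hw : ∑ i, w i • row (pts (K := K) X (f i)) = 0)
    (hI : ∀ β : Fin (K + 4) → ℝ, (∃ i j, i ≠ j ∧ β i = 0 ∧ β j = 0) →
      ∑ i, β i • row (pts (K := K) X i) = 0 → β = 0) : w = 0 := by
  classical
  let β : Fin (K + 4) → ℝ := fun a => ∑ i, if f i = a then w i else 0
  have hβf : ∀ i, β (f i) = w i := by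
    intro i
    show ∑ l, (if f l = f i then w l else 0) = w i
    rw [Finset.sum_eq_single i]
    · rw [if_pos rfl]
    · intro l _ hl
      rw [if_neg fun h => hl (hf h)]
    · intro h; exact absurd (Finset.mem_univ _) h
  have hβ0 : ∀ a, (∀ i, f i ≠ a) → β a = 0 := by
    intro a ha
    exact Finset.sum_eq_zero fun i _ => if_neg (ha i)
  have hz : ∃ i j, i ≠ j ∧ β i = 0 ∧ β j = 0 := by
    apply two_zeros
    have h1 : (Finset.univ.filter fun a => β a ≠ 0) ⊆ Finset.univ.image f := by
      intro a ha
      rw [Finset.mem_image]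
      by_contra hcon
      push Not at hcon
      exact (Finset.mem_filter.mp ha).2 (hβ0 a fun i => hcon i (Finset.mem_univ _))
    have h2 := Finset.card_le_card h1
    have h3 : (Finset.univ.image f).card ≤ K + 2 := by
      refine Finset.card_image_le.trans ?_
      rw [Finset.card_univ, Fintype.card_fin]
    omega
  have hsum : ∑ a, β a • row (pts (K := K) X a) = 0 := by
    have h1 : ∀ a, β a • row (pts (K := K) X a) =
        ∑ i, if f i = a then w i • row (pts (K := K) X a) else 0 := by
      intro a
      show (∑ i, if f i = a then w i else 0) • _ = _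
      rw [Finset.sum_smul]
      refine Finset.sum_congr rfl fun i _ => ?_
      split_ifs
      · rfl
      · exact zero_smul _ _
    simp only [h1]
    rw [Finset.sum_comm]
    refine Eq.trans (Finset.sum_congr rfl fun i _ => ?_) hw
    rw [Finset.sum_eq_single (f i)]
    · rw [if_pos rfl]
    · intro a _ ha
      rw [if_neg fun h => ha h.symm]
    · intro h; exact absurd (Finset.mem_univ _) h
  have hb := hI β hz hsum
  funext i
  rw [← hβf i, hb]
  rfl

theorem emb_comb {K q : ℕ} (j : Fin 4) (u v : Fin q → ℝ) {a b : ℝ} (hab : a + b = 1) :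
    emb (K := K) j (a • u + b • v) = a • emb j u + b • emb j v := by
  funext i
  refine Fin.addCases (fun m => ?_) (fun l => ?_) i
  · simp only [emb, Fin.append_left, Pi.add_apply, Pi.smul_apply, smul_eq_mul]
    rw [← add_mul, hab, one_mul]
  · simp only [emb, Fin.append_right, Pi.add_apply, Pi.smul_apply, smul_eq_mul]
    ring

theorem t_SB (hIND : S_IND) : S_SB := by
  classical
  intro K
  obtain ⟨h1, h2, h3⟩ := hIND
  refine ⟨?_, ?_, ?_, ?_⟩
  · intro f hf x hx
    let y : Fin (K + 4) → Fin (K + 2) → ℝ := fun a =>
      if h : ∃ i, f i = a then x h.choose else (famA_nonempty K a).some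
    have hyf : ∀ i, y (f i) = x i := by
      intro i
      have h : ∃ l, f l = f i := ⟨i, rfl⟩
      show (if h : ∃ l, f l = f i then x h.choose else (famA_nonempty K (f i)).some) = x i
      rw [dif_pos h]
      congr 1
      exact hf h.choose_spec
    have hy : ∀ a, y a ∈ famA K a := by
      intro a
      by_cases h : ∃ i, f i = a
      · obtain ⟨i, rfl⟩ := h
        rw [hyf]
        exact hx i
      · show (if h : ∃ l, f l = a then x h.choose else (famA_nonempty K a).some) ∈ _
        rw [dif_neg h]
        exact (famA_nonempty K a).some_mem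
    obtain ⟨X, hX, hyX⟩ := exists_X y hy
    obtain ⟨hne, hne'⟩ := h2 K X hX
    have hI := h1 K 2 X hne hne'
    rw [affineIndependent_iff]
    intro s w hw hs e he
    let w' : Fin (K + 2) → ℝ := fun i => if i ∈ s then w i else 0
    have hw' : ∑ i, w' i • row (pts (K := K) X (f i)) = 0 := by
      have e1 : ∀ i, w' i • row (pts (K := K) X (f i)) = if i ∈ s then w i • row (x i) else 0 := by
        intro i
        rw [← hyX, hyf]
        show (if i ∈ s then w i else 0) • _ = _
        split_ifs
        · rfl
        · exact zero_smul _ _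
      simp only [e1]
      rw [Finset.sum_ite_mem, Finset.univ_inter]
      funext l
      refine Fin.cases ?_ (fun l => ?_) l
      · simp only [Finset.sum_apply, Pi.smul_apply, row, Fin.cons_zero, smul_eq_mul, mul_one, Pi.zero_apply]
        exact hw
      · have := congrFun hs l
        simp only [Finset.sum_apply, Pi.smul_apply, row, Fin.cons_succ, smul_eq_mul, Pi.zero_apply] at this ⊢
        exact this
    have h0 := sum_zero_ext f hf w' hw' hI
    have := congrFun h0 e
    show w e = 0
    have h5 : w' e = w e := if_pos he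
    rw [← h5, this]
    rfl
  · intro f hf h0
    obtain ⟨hne, hne'⟩ := h3 K
    have hI := h1 K 1 _ hne hne'
    unfold orient at h0
    rw [← Matrix.exists_vecMul_eq_zero_iff] at h0
    obtain ⟨w, hw0, hw⟩ := h0
    apply hw0
    refine sum_zero_ext f hf.injective w ?_ hI
    rw [Matrix.vecMul_eq_sum] at hw
    exact hw
  · intro i
    refine Fin.addCases (fun m => ?_) (fun j => ?_) i
    · refine ⟨apx m, apx m, ?_⟩
      unfold famA
      rw [Fin.append_left, segment_same]
    · refine ⟨emb j (endU j), emb j (endV j), ?_⟩
      unfold famA sgm4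
      rw [Fin.append_right]
      ext z
      constructor
      · rintro ⟨Y, ⟨a, b, ha, hb, hab, rfl⟩, rfl⟩
        exact ⟨a, b, ha, hb, hab, (emb_comb j _ _ hab).symm⟩
      · rintro ⟨a, b, ha, hb, hab, rfl⟩
        exact ⟨_, ⟨a, b, ha, hb, hab, rfl⟩, emb_comb j _ _ hab⟩
  · intro i j hij
    rw [Set.disjoint_left]
    intro z hzi hzj
    let y : Fin (K + 4) → Fin (K + 2) → ℝ := fun a =>
      if a = j then z else if a = i then z else (famA_nonempty K a).some
    have hyj : y j = z := if_pos rfl
    have hyi : y i = z := by
      show (if i = j then z else if i = i then z else _) = z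
      rw [if_neg hij, if_pos rfl]
    have hy : ∀ a, y a ∈ famA K a := by
      intro a
      by_cases haj : a = j
      · rw [haj, hyj]; exact hzj
      by_cases hai : a = i
      · rw [hai, hyi]; exact hzi
      show (if a = j then z else if a = i then z else (famA_nonempty K a).some) ∈ _
      rw [if_neg haj, if_neg hai]
      exact (famA_nonempty K a).some_mem
    obtain ⟨X, hX, hyX⟩ := exists_X y hy
    obtain ⟨hne, hne'⟩ := h2 K X hX
    have hI := h1 K 2 X hne hne'
    have hb := hI (Pi.single i 1 - Pi.single j 1) (by
      apply two_zeros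
      have h5 : (Finset.univ.filter fun a => (Pi.single i (1 : ℝ) - Pi.single j 1 : Fin (K + 4) → ℝ) a ≠ 0) ⊆
          {i, j} := by
        intro a ha
        by_contra hcon
        rw [Finset.mem_insert, Finset.mem_singleton, not_or] at hcon
        apply (Finset.mem_filter.mp ha).2
        rw [Pi.sub_apply, Pi.single_eq_of_ne hcon.1, Pi.single_eq_of_ne hcon.2, sub_zero]
      have h6 := (Finset.card_le_card h5).trans Finset.card_le_two
      omega) (by
      simp only [Pi.sub_apply, sub_smul, Finset.sum_sub_distrib]
      rw [Finset.sum_eq_single i, Finset.sum_eq_single j]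
      · rw [Pi.single_eq_same, Pi.single_eq_same, ← hyX, ← hyX, hyi, hyj, sub_self]
      · intro b _ hb
        rw [Pi.single_eq_of_ne hb, zero_smul]
      · intro h; exact absurd (Finset.mem_univ _) h
      · intro b _ hb
        rw [Pi.single_eq_of_ne hb, zero_smul]
      · intro h; exact absurd (Finset.mem_univ _) h)
    have := congrFun hb i
    rw [Pi.sub_apply, Pi.single_eq_same, Pi.single_eq_of_ne hij, sub_zero] at this
    exact one_ne_zero this

end Pool.Agent.V5helper48.SE
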